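import Pool.Agent.J4H62.CD.Stm

/-! # Project CD (helper62): (DIV), the divisibility by Legendre's formula -/

set_option autoImplicit false

namespace Pool.Agent.J4H17.CD

open Pool.Agent.J4H62.CD Finset Nat

theorem a_mul (k : ℕ) : a k * ((3 * k)! * ((2 * k)! * k !)) = (6 * k)! := by
  unfold a
  have h1 := Nat.choose_mul_factorial_mul_factorial (n := 6 * k) (k := 3 * k) (by omega)
  have h2 := Nat.choose_mul_factorial_mul_factorial (n := 3 * k) (k := k) (by omega)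
  rw [show 6 * k - 3 * k = 3 * k by omega] at h1
  rw [show 3 * k - k = 2 * k by omega] at h2
  calc (6 * k).choose (3 * k) * (3 * k).choose k * ((3 * k)! * ((2 * k)! * k !)) =
      (6 * k).choose (3 * k) * (3 * k)! * ((3 * k).choose k * k ! * (2 * k)!) := by ring
    _ = (6 * k)! := by rw [h2, h1]

theorem ch_mul (n : ℕ) : (3 * n).choose n * (n ! * (2 * n)!) = (3 * n)! := by
  have h2 := Nat.choose_mul_factorial_mul_factorial (n := 3 * n) (k := n) (by omega)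
  rw [show 3 * n - n = 2 * n by omega] at h2
  rw [← h2]; ring

/-- the sums over the powers of a prime `p ≥ 5` -/
theorem sum_ge (h1 : S_FL) (h2 : S_FG) {p i j c B : ℕ} (hp : p.Prime) (hp3 : 3 < p) (hij : 1 ≤ i + j)
    (hc : p ^ c ∣ 2 * (i + j) - 1) (hB : c < B) :
    (∑ b ∈ Finset.Ico 1 B, L (p ^ b) i j) + c ≤ ∑ b ∈ Finset.Ico 1 B, R (p ^ b) i j := by
  have e : ∑ b ∈ Finset.Ico 1 B, (if b ≤ c then 1 else 0) = c := by
    rw [← Finset.card_filter]
    have : (Finset.Ico 1 B).filter (fun b => b ≤ c) = Finset.Ico 1 (c + 1) := by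
      ext b
      simp only [Finset.mem_filter, Finset.mem_Ico]
      omega
    rw [this, Nat.card_Ico]
    omega
  calc (∑ b ∈ Finset.Ico 1 B, L (p ^ b) i j) + c =
      (∑ b ∈ Finset.Ico 1 B, L (p ^ b) i j) + ∑ b ∈ Finset.Ico 1 B, (if b ≤ c then 1 else 0) := by rw [e]
    _ = ∑ b ∈ Finset.Ico 1 B, (L (p ^ b) i j + (if b ≤ c then 1 else 0)) := by rw [Finset.sum_add_distrib]
    _ ≤ _ := by
      apply Finset.sum_le_sum
      intro b hb
      rw [Finset.mem_Ico] at hb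
      split_ifs with h
      · refine h2 (p ^ b) i j ?_ hij ((pow_dvd_pow p h).trans hc)
        calc 3 < p := hp3
          _ = p ^ 1 := (pow_one p).symm
          _ ≤ p ^ b := Nat.pow_le_pow_right hp.pos hb.1
      · exact h1 (p ^ b) i j (Nat.one_le_pow _ _ hp.pos)

/-- the sums over the powers of 2 -/
theorem sum_two (h1 : S_FL) {p i j B : ℕ} (hp : p.Prime) :
    (∑ b ∈ Finset.Ico 1 B, L (p ^ b) i j) ≤ ∑ b ∈ Finset.Ico 1 B, R (p ^ b) i j :=
  Finset.sum_le_sum (fun b _ => h1 (p ^ b) i j (Nat.one_le_pow _ _ hp.pos))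

theorem main_dvd (h1 : S_FL) (h2 : S_FG) (h3 : S_SUM) {i j : ℕ} (hij : 1 ≤ i + j) :
    (2 * (i + j) - 1) * ((3 * j)! * ((2 * j)! * (j ! * ((3 * i)! * ((2 * i)! * (i ! * (3 * (i + j))!)))))) ∣
      (6 * j)! * ((6 * i)! * ((2 * (i + j))! * (i + j)!)) := by
  have hn0 : 2 * (i + j) - 1 ≠ 0 := by omega
  have f0 : ∀ m : ℕ, m ! ≠ 0 := Nat.factorial_ne_zero
  rw [← Nat.factorization_prime_le_iff_dvd
    (mul_ne_zero hn0 (mul_ne_zero (f0 _) (mul_ne_zero (f0 _) (mul_ne_zero (f0 _) (mul_ne_zero (f0 _)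
      (mul_ne_zero (f0 _) (mul_ne_zero (f0 _) (f0 _))))))))
    (mul_ne_zero (f0 _) (mul_ne_zero (f0 _) (mul_ne_zero (f0 _) (f0 _))))]
  intro p hp
  set c := (2 * (i + j) - 1).factorization p with hc
  set B := 6 * (i + j) + c + 2 with hB
  have hv : ∀ m : ℕ, m ≤ 6 * (i + j) → (m !).factorization p = ∑ b ∈ Finset.Ico 1 B, m / p ^ b := by
    intro m hm
    apply Nat.factorization_factorial hp
    have := Nat.log_le_self p m
    omega
  rw [Nat.factorization_mul hn0 (mul_ne_zero (f0 _) (mul_ne_zero (f0 _) (mul_ne_zero (f0 _) (mul_ne_zero (f0 _)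
      (mul_ne_zero (f0 _) (mul_ne_zero (f0 _) (f0 _))))))),
    Nat.factorization_mul (f0 _) (mul_ne_zero (f0 _) (mul_ne_zero (f0 _) (mul_ne_zero (f0 _)
      (mul_ne_zero (f0 _) (mul_ne_zero (f0 _) (f0 _)))))),
    Nat.factorization_mul (f0 _) (mul_ne_zero (f0 _) (mul_ne_zero (f0 _)
      (mul_ne_zero (f0 _) (mul_ne_zero (f0 _) (f0 _))))),
    Nat.factorization_mul (f0 _) (mul_ne_zero (f0 _) (mul_ne_zero (f0 _) (mul_ne_zero (f0 _) (f0 _)))),
    Nat.factorization_mul (f0 _) (mul_ne_zero (f0 _) (mul_ne_zero (f0 _) (f0 _))),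
    Nat.factorization_mul (f0 _) (mul_ne_zero (f0 _) (f0 _)),
    Nat.factorization_mul (f0 _) (f0 _),
    Nat.factorization_mul (f0 _) (mul_ne_zero (f0 _) (mul_ne_zero (f0 _) (f0 _))),
    Nat.factorization_mul (f0 _) (mul_ne_zero (f0 _) (f0 _)),
    Nat.factorization_mul (f0 _) (f0 _)]
  simp only [Finsupp.add_apply]
  rw [hv (3 * j) (by omega), hv (2 * j) (by omega), hv j (by omega), hv (3 * i) (by omega), hv (2 * i) (by omega),
    hv i (by omega), hv (3 * (i + j)) (by omega), hv (6 * j) (by omega), hv (6 * i) (by omega),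
    hv (2 * (i + j)) (by omega), hv (i + j) (by omega), ← hc]
  have eL : ∑ b ∈ Finset.Ico 1 B, L (p ^ b) i j = ∑ b ∈ Finset.Ico 1 B, (3 * j) / p ^ b +
      ∑ b ∈ Finset.Ico 1 B, (2 * j) / p ^ b + ∑ b ∈ Finset.Ico 1 B, j / p ^ b +
      ∑ b ∈ Finset.Ico 1 B, (3 * i) / p ^ b + ∑ b ∈ Finset.Ico 1 B, (2 * i) / p ^ b +
      ∑ b ∈ Finset.Ico 1 B, i / p ^ b + ∑ b ∈ Finset.Ico 1 B, (3 * (i + j)) / p ^ b := by
    unfold L
    simp only [Finset.sum_add_distrib]
  have eR : ∑ b ∈ Finset.Ico 1 B, R (p ^ b) i j = ∑ b ∈ Finset.Ico 1 B, (6 * j) / p ^ b +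
      ∑ b ∈ Finset.Ico 1 B, (6 * i) / p ^ b + ∑ b ∈ Finset.Ico 1 B, (2 * (i + j)) / p ^ b +
      ∑ b ∈ Finset.Ico 1 B, (i + j) / p ^ b := by
    unfold R
    simp only [Finset.sum_add_distrib]
  have hcd : p ^ c ∣ 2 * (i + j) - 1 := Nat.ordProj_dvd _ _
  have hcn : ¬ p ^ (c + 1) ∣ 2 * (i + j) - 1 := Nat.pow_succ_factorization_not_dvd hn0 hp
  have key : (∑ b ∈ Finset.Ico 1 B, L (p ^ b) i j) + c ≤ ∑ b ∈ Finset.Ico 1 B, R (p ^ b) i j := by
    rcases Nat.lt_or_ge 3 p with hp3 | hp3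
    · exact sum_ge h1 h2 hp hp3 hij hcd (by omega)
    · have hp2 := hp.two_le
      interval_cases p
      · have hc0 : c = 0 := by
          by_contra hne
          have h5 : 2 ^ 1 ∣ 2 * (i + j) - 1 := (pow_dvd_pow 2 (by omega)).trans hcd
          omega
        have := sum_two h1 (i := i) (j := j) (B := B) hp
        omega
      · exact h3 i j c B hij hcd hcn (by omega)
  rw [eL, eR] at key
  omega

theorem t_DIV : S_FL → S_FG → S_SUM → S_DIV := by
  intro h1 h2 h3 i j hij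
  have hd := main_dvd h1 h2 h3 hij
  set X := ((3 * j)! * ((2 * j)! * j !)) * ((3 * i)! * ((2 * i)! * i !)) * ((i + j)! * (2 * (i + j))!) with hX
  have hX0 : 0 < X := by positivity
  have e1 : (2 * (i + j) - 1) * (3 * (i + j)).choose (i + j) * X =
      (2 * (i + j) - 1) * ((3 * j)! * ((2 * j)! * (j ! * ((3 * i)! * ((2 * i)! * (i ! * (3 * (i + j))!)))))) := by
    rw [hX, ← ch_mul (i + j)]
    ring
  have e2 : a i * a j * X = (6 * j)! * ((6 * i)! * ((2 * (i + j))! * (i + j)!)) := by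
    rw [hX, ← a_mul i, ← a_mul j]
    ring
  rw [← e1, ← e2] at hd
  exact Nat.dvd_of_mul_dvd_mul_right hX0 hd

end Pool.Agent.J4H17.CD
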